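import Pool.Agent.H31.AFc

namespace Pool.Agent.Results.MP_acab80_co.Exact

open Finset

/-- `S` is conflict-free. -/
def ConflictFree {A : Type} (R : A → A → Prop) (S : Set A) : Prop :=
  ∀ a ∈ S, ∀ b ∈ S, ¬ R a b

/-- `S` defends `a`. -/
def Defends {A : Type} (R : A → A → Prop) (S : Set A) (a : A) : Prop :=
  ∀ b, R b a → ∃ c ∈ S, R c b

/-- `S` is admissible. -/
def Admissible {A : Type} (R : A → A → Prop) (S : Set A) : Prop :=
  ConflictFree R S ∧ ∀ a ∈ S, Defends R S a

/-- `S` is a complete extension. -/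
def Complete {A : Type} (R : A → A → Prop) (S : Set A) : Prop :=
  Admissible R S ∧ ∀ a, Defends R S a → a ∈ S

/-- The conjectured value. -/
def conj (n : ℕ) : ℕ :=
  if n ≤ 1 then 1 else if n % 2 = 0 then 3 ^ (n / 2) else 4 * 3 ^ ((n - 3) / 2)

theorem upper (A : Type) [Fintype A] (R : A → A → Prop) :
    Nat.card {S : Set A // Complete R S} ≤ conj (Fintype.card A) := by
  classical
  set M : Finset A := univ.filter (fun a => ¬ R a a) with hM
  set U : Finset A := univ.filter (fun a => ¬ ¬ R a a) with hU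
  have hMU : M.card + U.card = Fintype.card A := card_filter_add_card_filter_not _
  have hun : M ∪ U = univ := filter_union_filter_not_eq _ _
  have hs : ∀ a ∈ M, ¬ R a a := fun a ha => (mem_filter.mp ha).2
  have h1 : Nat.card {S : Set A // Complete R S} ≤ (H31.AFc.cs R M U).card := by
    rw [← Nat.card_eq_finsetCard]
    refine Nat.card_le_card_of_injective (fun S => ⟨S.1.toFinset, ?_⟩) ?_
    · obtain ⟨S, ⟨h1, h2⟩, h3⟩ := S
      rw [H31.AFc.mem_cs]
      refine ⟨fun a ha => ?_, fun a ha b hb => ?_, fun a _ => ?_⟩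
      · rw [Set.mem_toFinset] at ha
        exact mem_filter.mpr ⟨mem_univ _, h1 a ha a ha⟩
      · rw [Set.mem_toFinset] at ha hb
        exact h1 a ha b hb
      · simp only [Set.mem_toFinset, hun, mem_univ, true_imp_iff]
        exact ⟨h2 a, h3 a⟩
    · intro S T h
      apply Subtype.ext
      have := congrArg Subtype.val h
      simpa using this
  have h2 := H31.AFc.main R _ M U rfl hs
  suffices h : ((H31.AFc.cs R M U).card : ℚ) ≤ conj (Fintype.card A) by
    have : (H31.AFc.cs R M U).card ≤ conj (Fintype.card A) := by exact_mod_cast h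
    omega
  have hp : ((2 : ℚ) / 3) ^ U.card ≤ 1 := pow_le_one₀ (by norm_num) (by norm_num)
  have hg := H31.AFc.g_pos (Fintype.card A)
  simp only [H31.AFc.w, hMU] at h2
  rcases Nat.even_or_odd' (Fintype.card A) with ⟨k, hk | hk⟩
  · have e : (conj (Fintype.card A) : ℚ) = 3 ^ k := by
      rw [hk]; unfold conj
      rcases Nat.eq_zero_or_pos k with rfl | h
      · simp
      · rw [if_neg (by omega), if_pos (by omega), show 2 * k / 2 = k by omega]; push_cast; rfl
    rw [e, ← H31.AFc.g_even, ← hk]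
    nlinarith
  · have e1 : (3 : ℚ) ^ k ≤ conj (Fintype.card A) := by
      rw [hk]; unfold conj
      rcases k with _ | j
      · simp
      · rw [if_neg (by omega), if_neg (by omega), show (2 * (j + 1) + 1 - 3) / 2 = j by omega]
        push_cast
        have : (0 : ℚ) < 3 ^ j := by positivity
        rw [pow_succ]; linarith
    by_cases hU0 : U = ∅
    · rw [hU0] at hMU ⊢
      rcases H31.AFc.odd_case R M k (by simpa [hk] using hMU) hs with h | ⟨h0, h⟩
      · linarith
      · refine h.trans (le_of_eq ?_)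
        rw [hk]; unfold conj
        rw [if_neg (by omega), if_neg (by omega), show (2 * k + 1 - 3) / 2 = k - 1 by omega]
        push_cast; rfl
    · obtain ⟨j, hj⟩ : ∃ j, U.card = j + 1 :=
        ⟨U.card - 1, by have := card_pos.mpr (nonempty_iff_ne_empty.mpr hU0); omega⟩
      have hp2 : ((2 : ℚ) / 3) ^ j ≤ 1 := pow_le_one₀ (by norm_num) (by norm_num)
      rw [hj, hk, H31.AFc.g_odd, pow_succ] at h2
      have : (0 : ℚ) < 3 ^ k := by positivity
      nlinarith

theorem lower (I : Type) [Fintype I] [DecidableEq I] (sz : I → ℕ) (h : ∀ i, 2 ≤ sz i) :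
    ∏ i, (sz i + 1) ≤ Nat.card {S : Set (Σ i, Fin (sz i)) //
      Complete (fun x y => x.1 = y.1 ∧ x ≠ y) S} := by
  have e : Nat.card (∀ i, Option (Fin (sz i))) = ∏ i, (sz i + 1) := by
    simp
  rw [← e]
  have cf : ∀ f : ∀ i, Option (Fin (sz i)), ConflictFree (A := Σ i, Fin (sz i))
      (fun x y => x.1 = y.1 ∧ x ≠ y) {x | f x.1 = some x.2} := by
    rintro f ⟨i, a⟩ ha ⟨j, b⟩ hb ⟨h1, h2⟩
    obtain rfl : i = j := h1
    have h3 : f i = some a := ha
    have h4 : f i = some b := hb
    rw [h3] at h4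
    exact h2 (by rw [Option.some.inj h4])
  refine Nat.card_le_card_of_injective
    (fun f => ⟨{x | f x.1 = some x.2}, ⟨cf f, ?_⟩, ?_⟩) ?_
  · intro a ha b hb
    exact ⟨a, ha, hb.1.symm, hb.2.symm⟩
  · rintro ⟨i, a⟩ hd
    have : Nontrivial (Fin (sz i)) := Fin.nontrivial_iff_two_le.mpr (h i)
    obtain ⟨b, hb⟩ := exists_ne a
    obtain ⟨c, hc, hcb⟩ := hd ⟨i, b⟩ ⟨rfl, by simpa using hb⟩
    by_cases hca : c = ⟨i, a⟩
    · exact hca ▸ hc
    · obtain ⟨d, hd1, hd2⟩ := hd c ⟨hcb.1, hca⟩
      exact absurd hd2 (cf f d hd1 c hc)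
  · intro f g hfg
    have h1 : {x : Σ i, Fin (sz i) | f x.1 = some x.2} = {x | g x.1 = some x.2} :=
      congrArg Subtype.val hfg
    funext i
    apply Option.ext
    intro a
    exact Set.ext_iff.mp h1 ⟨i, a⟩

theorem result (n : ℕ) :
    IsGreatest {c : ℕ | ∃ (A : Type) (_ : Fintype A) (R : A → A → Prop),
      Fintype.card A = n ∧ c = Nat.card {S : Set A // Complete R S}} (conj n) := by
  constructor
  · have key : ∃ (A : Type) (_ : Fintype A) (R : A → A → Prop),
        Fintype.card A = n ∧ conj n ≤ Nat.card {S : Set A // Complete R S} := by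
      by_cases h1 : n = 1
      · refine ⟨Unit, inferInstance, fun _ _ => False, by simp [h1], ?_⟩
        have : Nonempty {S : Set Unit // Complete (fun _ _ => False) S} :=
          ⟨⟨Set.univ, ⟨fun _ _ _ _ h => h, fun _ _ _ h => h.elim⟩, fun _ _ => trivial⟩⟩
        rw [h1]
        exact Nat.card_pos
      rcases Nat.even_or_odd' n with ⟨k, hk | hk⟩
      · refine ⟨_, inferInstance, _, ?_, le_trans ?_ (lower (Fin k) (fun _ => 2) (by simp))⟩
        · simp [hk, mul_comm]
        · rw [hk]; unfold conj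
          rcases Nat.eq_zero_or_pos k with rfl | h
          · simp
          · rw [if_neg (by omega), if_pos (by omega), show 2 * k / 2 = k by omega]; simp
      · obtain ⟨j, rfl⟩ : ∃ j, k = j + 1 := ⟨k - 1, by omega⟩
        refine ⟨_, inferInstance, _, ?_, le_trans ?_ (lower (Option (Fin j))
          (fun o => o.elim 3 (fun _ => 2)) (by rintro (_ | _) <;> simp))⟩
        · simp [hk, Fintype.sum_option]; omega
        · rw [hk]; unfold conj
          rw [if_neg (by omega), if_neg (by omega), show (2 * (j + 1) + 1 - 3) / 2 = j by omega]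
          simp [Fintype.prod_option]
    obtain ⟨A, hA, R, h1, h2⟩ := key
    exact ⟨A, hA, R, h1, le_antisymm h2 (h1 ▸ upper A R)⟩
  · rintro c ⟨A, hA, R, h1, rfl⟩
    exact h1 ▸ upper A R

end Pool.Agent.Results.MP_acab80_co.Exact
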